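import Pool.Agent.Hhelper77.MulPrimes

/-!
The implication fails even for pairwise distinct primes `x`, `y`, `z` of `*N` with `v(x) = v(y)`.
-/

universe u v w

open Pool.Agent.Hhelper77

theorem Pool.Agent.Results.MP_5ff22d_lc.DistinctPrimesFail.result :
    (∃ (E : NonstandardExtension.{0, 1, 1}) (x y : E.Y),
      x ∈ E.starSet {r | r.Prime} ∧ y ∈ E.starSet {r | r.Prime} ∧ x ≠ y ∧ E.v x = E.v y) ∧
    ∀ (E : NonstandardExtension.{u, v, w}) (x y : E.Y),
      x ∈ E.starSet {r | r.Prime} → y ∈ E.starSet {r | r.Prime} → x ≠ y →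
      ∃ z ∈ E.starSet {r | r.Prime}, z ≠ x ∧ z ≠ y ∧
        ¬ EqTilde (E.v (E.mul x z)) (E.v (E.mul y z)) :=
  ⟨exists_twins, fun E x y hx hy hxy => primes_counterexample E x y hx hy hxy⟩
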