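import Pool.Agent.Hhelper77.MulCounter
import Pool.Agent.Hhelper77.SuperUltrapower

/-!
Q1 is answered negatively: proper nonstandard extensions exist, and in every proper nonstandard
extension there are `x`, `y`, `z` with `v(x) =~ v(y)` but `v(xz) ≠~ v(yz)`.
-/

universe u v w

open Pool.Agent.Hhelper77

theorem Pool.Agent.Results.MP_5ff22d_lc.MulNotCompatible.result :
    (∃ E : NonstandardExtension.{0, 1, 1}, E.Proper) ∧
    ∀ E : NonstandardExtension.{u, v, w}, E.Proper →
      ∃ x y z : E.Y, z ∈ E.starSet {r | r.Prime} ∧ EqTilde (E.v x) (E.v y) ∧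
        ¬ EqTilde (E.v (E.mul x z)) (E.v (E.mul y z)) :=
  ⟨exists_proper, fun E hE => counterexample E hE⟩
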